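import Pool.Agent.Helper95_CM.StK

/-!
# Linear algebra and change of coefficients, used for the modules RELK and REGK
-/

set_option autoImplicit false
set_option linter.unusedSectionVars false

noncomputable section

namespace Pool.Agent.Helper65_CM

open Pool.Agent.Helper95_CM

section lin
variable {I J : Type} [Fintype I] [DecidableEq I] [Fintype J] [DecidableEq J]

/-- a family of independent vectors has a left inverse matrix -/
lemma left_inv {F : Type} [Field F] (v : J → I → F) (h : LinearIndependent F v) :
    ∃ W : Matrix J I F, W * (Matrix.of fun i j => v j i) = 1 := by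
  have hinj : Function.Injective (Matrix.mulVec (Matrix.of fun i j => v j i : Matrix I J F)) := by
    rw [Matrix.mulVec_injective_iff]
    exact h
  have hker : LinearMap.ker (Matrix.toLin' (Matrix.of fun i j => v j i : Matrix I J F)) = ⊥ := by
    rw [LinearMap.ker_eq_bot]
    intro x y hxy
    apply hinj
    simpa [Matrix.toLin'_apply] using hxy
  obtain ⟨g, hg⟩ := LinearMap.exists_leftInverse_of_injective _ hker
  refine ⟨LinearMap.toMatrix' g, ?_⟩
  have h2 := congrArg LinearMap.toMatrix' hg
  rw [LinearMap.toMatrix'_comp, LinearMap.toMatrix'_toLin', LinearMap.toMatrix'_id] at h2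
  exact h2

/-- a matrix with a left inverse has independent columns -/
lemma indep_of_left_inv {F : Type} [Field F] (v : J → I → F) (W : Matrix J I F)
    (h : W * (Matrix.of fun i j => v j i) = 1) : LinearIndependent F v := by
  have hinj : Function.Injective (Matrix.mulVec (Matrix.of fun i j => v j i : Matrix I J F)) := by
    intro x y hxy
    have h1 : W.mulVec ((Matrix.of fun i j => v j i : Matrix I J F).mulVec x) =
        W.mulVec ((Matrix.of fun i j => v j i : Matrix I J F).mulVec y) := by rw [hxy]
    rw [Matrix.mulVec_mulVec, Matrix.mulVec_mulVec, h, Matrix.one_mulVec, Matrix.one_mulVec] at h1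
    exact h1
  rw [Matrix.mulVec_injective_iff] at hinj
  exact hinj

end lin

section intw
variable {I : Type} [Fintype I] [DecidableEq I]

/-- additive endomorphisms intertwined by a ring homomorphism applied entrywise -/
def Intw {R S : Type} [CommRing R] [CommRing S] (g : R →+* S) (A : AddMonoid.End (I → R))
    (A' : AddMonoid.End (I → S)) : Prop :=
  ∀ x : I → R, A' (fun i => g (x i)) = fun i => g (A x i)

variable {R S : Type} [CommRing R] [CommRing S] {g : R →+* S}

lemma Intw.mul {A B : AddMonoid.End (I → R)} {A' B' : AddMonoid.End (I → S)}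
    (h : Intw g A A') (h' : Intw g B B') : Intw g (A * B) (A' * B') := by
  intro x
  change A' (B' (fun i => g (x i))) = fun i => g (A (B x) i)
  rw [h' x, h (B x)]

lemma Intw.one : Intw (I := I) g 1 1 := by
  intro x
  rfl

lemma Intw.pow {A : AddMonoid.End (I → R)} {A' : AddMonoid.End (I → S)}
    (h : Intw g A A') (n : ℕ) : Intw g (A ^ n) (A' ^ n) := by
  induction n with
  | zero => rw [pow_zero, pow_zero]; exact Intw.one
  | succ n ih => rw [pow_succ, pow_succ]; exact ih.mul h

lemma Intw.sub {A B : AddMonoid.End (I → R)} {A' B' : AddMonoid.End (I → S)}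
    (h : Intw g A A') (h' : Intw g B B') : Intw g (A - B) (A' - B') := by
  intro x
  change A' (fun i => g (x i)) - B' (fun i => g (x i)) = fun i => g ((A x - B x) i)
  rw [h x, h' x]
  ext i
  simp

lemma Intw.nbE {d : R →+ R} {d' : S →+ S} (hd : ∀ x, d' (g x) = g (d x)) (Q : Matrix I I R) :
    Intw g (nbE d Q) (nbE d' (Q.map g)) := by
  intro x
  ext i
  change d' (g (x i)) + ((Q.map g).mulVec (fun i => g (x i))) i = g (d (x i) + (Q.mulVec x) i)
  rw [hd, map_add]
  congr 1
  simp [Matrix.mulVec, dotProduct, map_sum]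

lemma single_map (g : R →+* S) (i : I) :
    (Pi.single i (1 : S) : I → S) = fun j => g ((Pi.single i (1 : R) : I → R) j) := by
  ext j
  by_cases h : j = i
  · subst h; simp
  · simp [h]

/-- the vectors `∇^j e_i` commute with change of rings -/
lemma vec_map {d : R →+ R} {d' : S →+ S} (hd : ∀ x, d' (g x) = g (d x)) (Q : Matrix I I R)
    (i : I) (j : ℕ) (i' : I) :
    ((Pool.Agent.Helper95_CM.nbE d' (Q.map g)) ^ j) (Pi.single i 1) i' =
      g (((Pool.Agent.Helper95_CM.nbE d Q) ^ j) (Pi.single i 1) i') := by
  have h := (Intw.nbE hd Q).pow j (Pi.single i 1)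
  rw [← single_map] at h
  rw [h]

end intw

section lifts
variable {q : ℕ} {K : Type} [Field K]

lemma lift_matrix {I J : Type} [Fintype I] [Fintype J] (Q : Matrix I J (LL q K))
    (h : ∀ i j, SprL (Q i j)) : ∃ p0 : ℕ, ∀ (p : ℕ) [Fact p.Prime], p0 ≤ p →
      ∀ ι : K →+* ℚ_[p], ∃ Q' : Matrix I J (LL q ℤ_[p]), LiftM ι Q Q' := by
  classical
  choose p1 h1 using h
  refine ⟨∑ i, ∑ j, p1 i j, ?_⟩
  intro p _ hp ι
  have h2 : ∀ i j, ∃ y : LL q ℤ_[p], mL q ι (Q i j) = mL q (zq p) y := by
    intro i j
    apply h1 i j p
    refine le_trans ?_ hp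
    refine le_trans ?_ (Finset.single_le_sum (f := fun i => ∑ j, p1 i j) (fun _ _ => Nat.zero_le _)
      (Finset.mem_univ i))
    exact Finset.single_le_sum (f := fun j => p1 i j) (fun _ _ => Nat.zero_le _)
      (Finset.mem_univ j)
  choose Q' hQ' using h2
  refine ⟨Matrix.of Q', ?_⟩
  ext1 i j
  exact hQ' i j

end lifts

end Pool.Agent.Helper65_CM
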