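import Pool.Agent.Helper65_CM.Relk

/-!
# Module REGK: a stable lattice over the number field
-/

set_option autoImplicit false
set_option linter.unusedSectionVars false

noncomputable section

namespace Pool.Agent.Helper65_CM

open Pool.Agent.Helper95_CM

lemma inv_mem {F : Type} [Field F] (S : Subfield F) {I : Type} [Fintype I] [DecidableEq I]
    (U Ui : Matrix I I F) (h1 : U * Ui = 1) (h2 : Ui * U = 1) (hU : ∀ i j, U i j ∈ S) :
    ∀ i j, Ui i j ∈ S := by
  set U0 : Matrix I I S := Matrix.of fun i j => ⟨U i j, hU i j⟩ with hU0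
  have hmap : U0.map S.subtype = U := by
    ext1 i j
    rfl
  have hdet : S.subtype U0.det = U.det := by
    rw [RingHom.map_det, RingHom.mapMatrix_apply, hmap]
  have hne : U.det ≠ 0 := by
    intro h0
    have := congrArg Matrix.det h1
    rw [Matrix.det_mul, h0, zero_mul, Matrix.det_one] at this
    exact zero_ne_one this
  have hne0 : U0.det ≠ 0 := by
    intro h0
    rw [h0, map_zero] at hdet
    exact hne hdet.symm
  have h3 : U0 * U0⁻¹ = 1 := Matrix.mul_nonsing_inv _ (isUnit_iff_ne_zero.mpr hne0)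
  have h4 := congrArg (fun X : Matrix I I S => X.map S.subtype) h3
  simp only [Matrix.map_mul] at h4
  rw [Matrix.map_one _ (map_zero _) (map_one _), hmap] at h4
  have h5 : Ui = (U0⁻¹).map S.subtype := by
    calc Ui = Ui * (U * (U0⁻¹).map S.subtype) := by rw [h4, Matrix.mul_one]
      _ = (U0⁻¹).map S.subtype := by rw [← Matrix.mul_assoc, h2, Matrix.one_mul]
  intro i j
  rw [h5]
  exact (U0⁻¹ i j).2

/-- the inclusion of Laurent series over the subfield -/
def inc (q : ℕ) (K : Type) [Field K] : LaurentSeries (kF q K) →+* LL q K :=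
  hmap (kF q K).subtype

lemma inc_coeff (q : ℕ) (K : Type) [Field K] (x : LaurentSeries (kF q K)) (m : ℤ) :
    (inc q K x).coeff m = ((x.coeff m : kF q K) : OO q K) := rfl

/-- lift of a series with coefficients in the subfield -/
def low (q : ℕ) (K : Type) [Field K] (x : LL q K) (h : ∀ m : ℤ, x.coeff m ∈ kF q K) :
    LaurentSeries (kF q K) where
  coeff m := ⟨x.coeff m, h m⟩
  isPWO_support' := x.isPWO_support.mono (by
    intro m hm h0
    apply hm
    exact Subtype.ext h0)

lemma inc_low (q : ℕ) (K : Type) [Field K] (x : LL q K) (h : ∀ m : ℤ, x.coeff m ∈ kF q K) :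
    inc q K (low q K x h) = x := by
  ext m : 2
  rfl

lemma tht_inc (q : ℕ) (K : Type) [Field K] (x : LaurentSeries (kF q K)) :
    thLt q K (inc q K x) = inc q K (tht (kF q K) x) := by
  apply HahnSeries.ext
  funext m
  change ((m : ℤ) : OO q K) * ((x.coeff m : kF q K) : OO q K) =
    (((m : ℤ) : kF q K) * x.coeff m : kF q K)
  push_cast
  rfl

lemma ordGe_inc (q : ℕ) (K : Type) [Field K] (x : LaurentSeries (kF q K)) (a : ℤ) :
    OrdGe a (inc q K x) ↔ OrdGe a x := by
  constructor
  · intro h m hm
    have h1 : ((x.coeff m : kF q K) : OO q K) = 0 := h m hm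
    exact_mod_cast h1
  · intro h m hm
    have h1 : x.coeff m = 0 := h m hm
    rw [inc_coeff, h1]
    rfl

theorem regk (hRelk : RelkStmt) (hLatk : LatkStmt) (hSpg : SpgStmt) : RegkStmt := by
  intro q K _ _ I _ _ L Q hQ
  set Q0 : Matrix I I (LaurentSeries (kF q K)) :=
    Matrix.of fun i j => low q K (Q i j) (hQ.1 i j).2 with hQ0
  have hQQ : Q0.map (inc q K) = Q := by
    ext1 i j
    exact inc_low q K _ _
  have hvec : ∀ (i : I) (j : ℕ) (i' : I),
      ((nbE (thLt q K) Q) ^ j) (Pi.single i 1) i' =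
        inc q K (((nbE (tht (kF q K)) Q0) ^ j) (Pi.single i 1) i') := by
    intro i j i'
    rw [← vec_map (g := inc q K) (d' := thLt q K) (tht_inc q K) Q0 i j i', hQQ]
  obtain ⟨U, Ui, Q', hG, hpol, hlp⟩ := hLatk (kF q K) I Q0 (by
    intro i m f hind hrel j
    rw [← ordGe_inc]
    obtain ⟨W, hW⟩ := left_inv _ hind
    have hW2 : W.map (inc q K) * (Matrix.of fun i' (j : Fin m) =>
        ((nbE (thLt q K) Q) ^ (j : ℕ)) (Pi.single i 1) i') = 1 := by
      have h1 := congrArg
        (fun X : Matrix (Fin m) (Fin m) (LaurentSeries (kF q K)) => X.map (inc q K)) hW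
      simp only [Matrix.map_mul] at h1
      rw [Matrix.map_one _ (map_zero _) (map_one _)] at h1
      rw [← h1]
      congr 1
      ext1 i' j
      simp only [Matrix.of_apply, Matrix.map_apply]
      exact hvec i j i'
    refine hRelk q K I L Q hQ i m (fun j => inc q K (f j))
      (indep_of_left_inv _ _ hW2) ?_ j
    ext1 i'
    rw [hvec, hrel]
    simp only [Finset.sum_apply, Pi.smul_apply, smul_eq_mul, map_sum, map_mul]
    apply Finset.sum_congr rfl
    intro a _
    rw [hvec])
  obtain ⟨⟨S, hS⟩, -, -, -, -, -, hth, hLP⟩ := hSpg q K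
  have hinv : U.map (inc q K) * Ui.map (inc q K) = 1 := by
    rw [← Matrix.map_mul, hG.inv, Matrix.map_one _ (map_zero _) (map_one _)]
  have hinv' : Ui.map (inc q K) * U.map (inc q K) = 1 := by
    rw [← Matrix.map_mul, hG.inv', Matrix.map_one _ (map_zero _) (map_one _)]
  have heq : (U.map (inc q K)).map (thLt q K) + Q * U.map (inc q K) =
      U.map (inc q K) * Q'.map (inc q K) := by
    have h1 := congrArg
      (fun X : Matrix I I (LaurentSeries (kF q K)) => X.map (inc q K)) hG.eq
    simp only [Matrix.map_mul] at h1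
    rw [← h1, ← hQQ]
    ext1 i j
    simp only [Matrix.add_apply, Matrix.map_apply, map_add, tht_inc]
    congr 1
    simp [Matrix.mul_apply, map_sum]
  have hUG : ∀ i j, InG (U.map (inc q K) i j) := by
    intro i j
    apply hLP
    · intro m
      exact (((U i j).coeff m : kF q K)).2
    · obtain ⟨a, ha⟩ := hlp
      refine ⟨a, fun m hm => ?_⟩
      have := ha i j m hm
      rw [Matrix.map_apply, inc_coeff, this]
      rfl
  have hUS : ∀ i j, U.map (inc q K) i j ∈ S := fun i j => (hS _).mpr (hUG i j)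
  have hUiS := inv_mem S _ _ hinv hinv' hUS
  have hQ'S : ∀ i j, Q'.map (inc q K) i j ∈ S := by
    have h1 : Q'.map (inc q K) = Ui.map (inc q K) *
        ((U.map (inc q K)).map (thLt q K) + Q * U.map (inc q K)) := by
      rw [heq, ← Matrix.mul_assoc, hinv', Matrix.one_mul]
    intro i j
    rw [h1]
    apply Subfield.sum_mem
    intro a _
    apply S.mul_mem (hUiS i a)
    apply S.add_mem
    · exact (hS _).mpr (hth _ (hUG a j))
    · apply Subfield.sum_mem
      intro b _
      exact S.mul_mem ((hS _).mpr (hQ.1 a b)) (hUS b j)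
  refine ⟨U.map (inc q K), Ui.map (inc q K), Q'.map (inc q K), ⟨hinv, hinv', heq⟩, ?_, ?_, hUG,
    fun i j => (hS _).mp (hUiS i j), fun i j => (hS _).mp (hQ'S i j)⟩
  · intro i j
    exact (ordGe_inc q K _ _).mpr (hpol i j)
  · obtain ⟨a, ha⟩ := hlp
    refine ⟨a, fun i j m hm => ?_⟩
    have := ha i j m hm
    rw [Matrix.map_apply, inc_coeff, this]
    rfl

end Pool.Agent.Helper65_CM
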