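import Pool.Agent.Helper65_CM.Lib

/-!
# Module RELK: cyclic relations are pole-free
-/

set_option autoImplicit false
set_option linter.unusedSectionVars false

noncomputable section

namespace Pool.Agent.Helper65_CM

open Pool.Agent.Helper95_CM

section aux
variable {I : Type} [Fintype I] [DecidableEq I]

lemma coeff_mL {R S : Type} [CommRing R] [CommRing S] (q : ℕ) (g : R →+* S) (x : LL q R) (m : ℤ) :
    (mL q g x).coeff m = mO q g (x.coeff m) := rfl

/-- entries of the vectors in a subfield stable under the derivation -/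
lemma vec_mem {F : Type} [Field F] (S : Subfield F) (d : F →+ F) (hd : ∀ x ∈ S, d x ∈ S)
    (Q : Matrix I I F) (hQ : ∀ i j, Q i j ∈ S) (x : I → F) (hx : ∀ i, x i ∈ S) (j : ℕ) :
    ∀ i', ((nbE d Q) ^ j) x i' ∈ S := by
  induction j with
  | zero => intro i'; exact hx i'
  | succ j ih =>
    intro i'
    rw [pow_succ']
    change d (((nbE d Q) ^ j) x i') + (Q.mulVec (((nbE d Q) ^ j) x)) i' ∈ S
    apply S.add_mem (hd _ (ih i'))
    apply Subfield.sum_mem
    intro a _
    exact S.mul_mem (hQ i' a) (ih a)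

lemma left_inv_mem {F : Type} [Field F] (S : Subfield F) {J : Type} [Fintype J] [DecidableEq J]
    (v : J → I → F) (hv : ∀ j i, v j i ∈ S) (h : LinearIndependent F v) :
    ∃ W : Matrix J I F, (∀ a b, W a b ∈ S) ∧ W * (Matrix.of fun i j => v j i) = 1 := by
  have hind : LinearIndependent S (fun j => fun i => (⟨v j i, hv j i⟩ : S)) := by
    rw [Fintype.linearIndependent_iff] at h ⊢
    intro g hg j
    have h1 := h (fun j => (g j : F)) ?_ j
    · exact_mod_cast h1
    · ext i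
      have h2 := congrFun hg i
      have h3 := congrArg (fun x : S => (x : F)) h2
      simpa [Finset.sum_apply] using! h3
  obtain ⟨W', hW'⟩ := left_inv _ hind
  refine ⟨W'.map (fun x : S => (x : F)), ?_, ?_⟩
  · intro a b
    exact (W' a b).2
  · have h4 := congrArg (fun X : Matrix J J S => X.map S.subtype) hW'
    simp only [Matrix.map_mul] at h4
    rw [show (1 : Matrix J J S).map S.subtype = (1 : Matrix J J F) by
      rw [Matrix.map_one] <;> simp] at h4
    exact h4

lemma natCast_smul_map {R S : Type} [CommRing R] [CommRing S] (g : R →+* S) (p : ℕ)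
    (hp : (p : S) = 0) (y : I → R) : (fun i => g (((p : R) • y) i)) = (0 : I → S) := by
  ext i
  simp [hp]

end aux

/-- reduction of the series ring modulo `p` -/
def rd (q p : ℕ) [Fact p.Prime] : LL q ℤ_[p] →+* LL q (ZMod p) := mL q PadicInt.toZMod

lemma natCast_OO_zmod (q p : ℕ) [Fact p.Prime] : ((p : ℕ) : OO q (ZMod p)) = 0 := by
  have h : (((p : ℕ) : ZMod p)) = 0 := ZMod.natCast_self p
  have h2 := congrArg (kO q (ZMod p)) h
  rwa [map_natCast, map_zero] at h2

lemma natCast_LL_zmod (q p : ℕ) [Fact p.Prime] : ((p : ℕ) : LL q (ZMod p)) = 0 := by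
  have h : (((p : ℕ) : ZMod p)) = 0 := ZMod.natCast_self p
  have h2 := congrArg (kL q (ZMod p)) h
  rwa [map_natCast, map_zero] at h2

theorem relk (hPc : PcurvStmt) (hReg : RegpStmt) (hSpo : SpoStmt) (hSpg : SpgStmt)
    (hLft : LftStmt) (hFrb : FrbStmt) (hOpc : OpcStmt) (hSplit : SplitStmt) : RelkStmt := by
  intro q K _ _ I _ _ L Q hQ i m f hind hrel j0
  by_contra hpole
  simp only [OrdGe, not_forall] at hpole
  obtain ⟨m1, hm1, hne⟩ := hpole
  obtain ⟨⟨S, hS⟩, -, -, -, -, -, hth, -⟩ := hSpg q K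
  have hQS : ∀ i j, Q i j ∈ S := fun i j => (hS _).mpr (hQ.1 i j)
  have hthS : ∀ x ∈ S, thLt q K x ∈ S := fun x hx => (hS _).mpr (hth x ((hS _).mp hx))
  have hes : ∀ i', (Pi.single i 1 : I → LL q K) i' ∈ S := by
    intro i'
    by_cases h : i' = i
    · subst h; simp [S.one_mem]
    · simp [h, S.zero_mem]
  have hvS : ∀ (j : ℕ) i', ((nbE (thLt q K) Q) ^ j) (Pi.single i 1) i' ∈ S :=
    fun j => vec_mem S (thLt q K) hthS Q hQS _ hes j
  obtain ⟨W, hWS, hW⟩ := left_inv_mem S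
    (fun j : Fin m => ((nbE (thLt q K) Q) ^ (j : ℕ)) (Pi.single i 1)) (fun j => hvS j) hind
  -- `f = W v_m`
  have hf : f = W.mulVec (((nbE (thLt q K) Q) ^ m) (Pi.single i 1)) := by
    have h1 : ((nbE (thLt q K) Q) ^ m) (Pi.single i 1) =
        (Matrix.of fun i' (j : Fin m) => ((nbE (thLt q K) Q) ^ (j : ℕ)) (Pi.single i 1) i').mulVec
          f := by
      rw [hrel]
      ext i'
      simp [Matrix.mulVec, dotProduct, Finset.sum_apply, mul_comm]
    rw [h1, Matrix.mulVec_mulVec, hW, Matrix.one_mulVec]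
  have hfS : ∀ j, f j ∈ S := by
    intro j
    rw [hf]
    apply Subfield.sum_mem
    intro a _
    exact S.mul_mem (hWS j a) (hvS m a)
  -- choose a large prime
  obtain ⟨C, p1, hp1⟩ := hQ.2 0
  obtain ⟨p2, hp2⟩ := lift_matrix Q (fun a b => (hQ.1 a b).1)
  obtain ⟨p3, hp3⟩ := lift_matrix W (fun a b => ((hS _).mp (hWS a b)).1)
  obtain ⟨p4, hp4⟩ := (hSpo q K ((f j0).coeff m1) (((hS _).mp (hfS j0)).2 m1)).2.2.2 hne
  obtain ⟨p, hpr, hp, ⟨ι⟩⟩ := hSplit K (p1 + p2 + p3 + p4 + 2 * L + 2)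
  obtain ⟨Q', hQ'⟩ := hp2 p (by omega) ι
  obtain ⟨W', hW'⟩ := hp3 p (by omega) ι
  have hFA := (hp1 p (by omega) ι Q' hQ').1
  have hunit := hp4 p (by omega) ι
  obtain ⟨hinj, -⟩ := hLft q p
  have hprime : p.Prime := hpr.out
  have hthι : ∀ x : LL q K, thLt q ℚ_[p] (mL q ι x) = mL q ι (thLt q K x) :=
    fun x => ((hOpc q K ℚ_[p] ι p hprime.pos).2.1 x).symm
  have hthz : ∀ x : LL q ℤ_[p], thLt q ℚ_[p] (mL q (zq p) x) = mL q (zq p) (thLt q ℤ_[p] x) :=
    fun x => ((hOpc q ℤ_[p] ℚ_[p] (zq p) p hprime.pos).2.1 x).symm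
  have hthr : ∀ x : LL q ℤ_[p], thLt q (ZMod p) (rd q p x) = rd q p (thLt q ℤ_[p] x) :=
    fun x => ((hOpc q ℤ_[p] (ZMod p) PadicInt.toZMod p hprime.pos).2.1 x).symm
  -- the vectors at the three levels
  have hv1 : ∀ (j : ℕ) (i' : I), mL q ι (((nbE (thLt q K) Q) ^ j) (Pi.single i 1) i') =
      mL q (zq p) (((nbE (thLt q ℤ_[p]) Q') ^ j) (Pi.single i 1) i') := by
    intro j i'
    rw [← vec_map (g := mL q ι) hthι Q i j i', ← vec_map (g := mL q (zq p)) hthz Q' i j i']
    have : Q.map (mL q ι) = Q'.map (mL q (zq p)) := hQ'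
    rw [this]
  set f' : Fin m → LL q ℤ_[p] :=
    W'.mulVec (((nbE (thLt q ℤ_[p]) Q') ^ m) (Pi.single i 1)) with hf'
  have hWe : ∀ a b, mL q ι (W a b) = mL q (zq p) (W' a b) := by
    intro a b
    exact congrFun (congrFun hW' a) b
  have hff : ∀ j, mL q ι (f j) = mL q (zq p) (f' j) := by
    intro j
    rw [hf, hf']
    simp only [Matrix.mulVec, dotProduct, map_sum, map_mul]
    apply Finset.sum_congr rfl
    intro a _
    rw [hWe, hv1]
  have hW1 : W' * (Matrix.of fun i' (j : Fin m) =>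
      ((nbE (thLt q ℤ_[p]) Q') ^ (j : ℕ)) (Pi.single i 1) i') = 1 := by
    ext1 a b
    apply hinj
    have h1 := congrArg (fun X : Matrix (Fin m) (Fin m) (LL q K) => mL q ι (X a b)) hW
    simp only [Matrix.mul_apply, map_sum, map_mul, Matrix.of_apply] at h1 ⊢
    rw [show (mL q (zq p)) ((1 : Matrix (Fin m) (Fin m) (LL q ℤ_[p])) a b) =
      mL q ι ((1 : Matrix (Fin m) (Fin m) (LL q K)) a b) by
        by_cases hab : a = b
        · subst hab; simp
        · simp [Matrix.one_apply_ne hab], ← h1]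
    apply Finset.sum_congr rfl
    intro c _
    rw [hWe, hv1]
  have hrel1 : ((nbE (thLt q ℤ_[p]) Q') ^ m) (Pi.single i 1) =
      ∑ j, f' j • ((nbE (thLt q ℤ_[p]) Q') ^ (j : ℕ)) (Pi.single i 1) := by
    ext1 i'
    apply hinj
    rw [← hv1, hrel]
    simp only [Finset.sum_apply, Pi.smul_apply, smul_eq_mul, map_sum, map_mul]
    apply Finset.sum_congr rfl
    intro a _
    rw [hff, hv1]
  -- reduction modulo p
  have hv2 : ∀ (j : ℕ) (i' : I), (((nbE (thLt q (ZMod p)) (Q'.map (rd q p))) ^ j)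
      (Pi.single i 1) i') = rd q p (((nbE (thLt q ℤ_[p]) Q') ^ j) (Pi.single i 1) i') :=
    fun j i' => vec_map (g := rd q p) hthr Q' i j i'
  have hW2 : W'.map (rd q p) * (Matrix.of fun i' (j : Fin m) =>
      ((nbE (thLt q (ZMod p)) (Q'.map (rd q p))) ^ (j : ℕ)) (Pi.single i 1) i') = 1 := by
    have h1 := congrArg (fun X : Matrix (Fin m) (Fin m) (LL q ℤ_[p]) => X.map (rd q p)) hW1
    simp only [Matrix.map_mul] at h1
    rw [Matrix.map_one _ (map_zero _) (map_one _)] at h1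
    rw [← h1]
    congr 1
    ext1 i' j
    simp only [Matrix.of_apply, Matrix.map_apply]
    exact hv2 j i'
  have hind2 : LinearIndependent (LL q (ZMod p)) (fun j : Fin m =>
      ((nbE (thLt q (ZMod p)) (Q'.map (rd q p))) ^ (j : ℕ)) (Pi.single i 1)) :=
    indep_of_left_inv _ _ hW2
  have hrel2 : ((nbE (thLt q (ZMod p)) (Q'.map (rd q p))) ^ m) (Pi.single i 1) =
      ∑ j, rd q p (f' j) • ((nbE (thLt q (ZMod p)) (Q'.map (rd q p))) ^ (j : ℕ))
        (Pi.single i 1) := by
    ext1 i'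
    rw [hv2, hrel1]
    simp only [Finset.sum_apply, Pi.smul_apply, smul_eq_mul, map_sum, map_mul]
    apply Finset.sum_congr rfl
    intro a _
    rw [hv2]
  have hann : (Polynomial.aeval (nbE (thLt q (ZMod p)) (Q'.map (rd q p)))
      ((Polynomial.X ^ p - Polynomial.X : Polynomial ℤ) ^ (2 * L + 1))) (Pi.single i 1) = 0 := by
    rw [map_pow, map_sub, map_pow, Polynomial.aeval_X]
    have hI := Intw.nbE (g := rd q p) (d := thLt q ℤ_[p]) (d' := thLt q (ZMod p)) hthr Q'
    have hI2 := ((hI.pow p).sub hI).pow (2 * L + 1)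
    have h3 := hI2 (Pi.single i 1)
    rw [← single_map] at h3
    rw [h3]
    obtain ⟨y, hy⟩ := hPc p (OO q ℤ_[p]) (kO q ℤ_[p]) (phO q ℤ_[p] p) I L Q' (hFrb q p).2.2.1 hFA
      (by omega) (Pi.single i 1)
    have h4 : ((nbE (thLt q ℤ_[p]) Q' ^ p - nbE (thLt q ℤ_[p]) Q') ^ (2 * L + 1))
        (Pi.single i 1) = (p : LL q ℤ_[p]) • y := hy
    rw [h4]
    exact natCast_smul_map (rd q p) p (natCast_LL_zmod q p) y
  have hmon : ((Polynomial.X ^ p - Polynomial.X : Polynomial ℤ) ^ (2 * L + 1)).Monic := by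
    apply Polynomial.Monic.pow
    apply Polynomial.monic_X_pow_sub
    rw [Polynomial.degree_X]
    exact_mod_cast hprime.one_lt
  have hfin := hReg (OO q (ZMod p)) I (Q'.map (rd q p)) (Pi.single i 1) m
    (fun j => rd q p (f' j)) _ hmon hann hind2 hrel2 j0 m1 hm1
  -- the coefficient is a unit
  have hu : IsUnit ((f' j0).coeff m1) := by
    apply hunit
    have := congrArg (fun x : LL q ℚ_[p] => x.coeff m1) (hff j0)
    exact this
  have hu2 : IsUnit (mO q (PadicInt.toZMod (p := p)) ((f' j0).coeff m1)) := hu.map _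
  have hfin2 : mO q (PadicInt.toZMod (p := p)) ((f' j0).coeff m1) = 0 := hfin
  rw [hfin2] at hu2
  exact not_isUnit_zero hu2

end Pool.Agent.Helper65_CM
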